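import Mathlib

set_option autoImplicit false
open Matrix

namespace Pool.Agent.Lib.MP1f1fe3

/-- The matrix `[[2,1],[1,1]]` in `SL(2,R)`. -/
def M0 (R : Type*) [CommRing R] : Matrix.SpecialLinearGroup (Fin 2) R :=
  ⟨!![2, 1; 1, 1], by simp [Matrix.det_fin_two]; norm_num⟩

/-- Powers of `M0` with entries in a ring. -/
def A (R : Type*) [CommRing R] (n : ℤ) : Matrix (Fin 2) (Fin 2) R :=
  ((M0 R ^ n : Matrix.SpecialLinearGroup (Fin 2) R) : Matrix (Fin 2) (Fin 2) R)

variable {R S : Type*} [CommRing R] [CommRing S]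

@[simp] theorem A_zero : A R 0 = 1 := by
  simp [A]

theorem A_add (n m : ℤ) : A R (n + m) = A R n * A R m := by
  unfold A
  rw [_root_.zpow_add, Matrix.SpecialLinearGroup.coe_mul]

theorem A_one : A R 1 = !![2, 1; 1, 1] := by
  unfold A
  rw [_root_.zpow_one]
  rfl

theorem A_comm (n m : ℤ) : A R n * A R m = A R m * A R n := by
  rw [← A_add, ← A_add, add_comm]

theorem A_mul_neg (n : ℤ) : A R n * A R (-n) = 1 := by
  rw [← A_add]; simp

theorem A_neg_mul (n : ℤ) : A R (-n) * A R n = 1 := by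
  rw [← A_add]; simp

theorem A_map (f : R →+* S) (n : ℤ) : (A R n).map f = A S n := by
  have h1 : Matrix.SpecialLinearGroup.map f (M0 R) = M0 S := by
    ext i j
    rw [Matrix.SpecialLinearGroup.map_apply_coe]
    fin_cases i <;> fin_cases j <;> simp [M0, map_ofNat]
  unfold A
  rw [← h1, ← map_zpow]
  rfl

/-- `MV` is the ring of complex `2 × 2` matrices. -/
abbrev MV := Matrix (Fin 2) (Fin 2) ℂ

/-- The golden ratio as an opaque constant. -/
noncomputable def phi : ℝ := Real.goldenRatio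

theorem one_lt_phi : 1 < phi := Real.one_lt_goldenRatio

theorem phi_sq : (phi : ℂ) * (phi : ℂ) = (phi : ℂ) + 1 := by
  have h : phi ^ 2 = phi + 1 := Real.goldenRatio_sq
  rw [← sq]
  exact_mod_cast h

/-- The nilpotent matrix. -/
noncomputable def N : MV :=
  !![(phi : ℂ), -((phi : ℂ) + 1); 1, -(phi : ℂ)]

theorem N_mul_N : N * N = 0 := by
  have h := phi_sq
  ext i j
  fin_cases i <;> fin_cases j <;> simp [N, Matrix.mul_apply, Fin.sum_univ_two] <;>
    first
    | ring1
    | linear_combination h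

/-- the multiplier `φ^4 = 3 φ + 2`. -/
noncomputable def Q : ℝ := 3 * phi + 2

theorem Q_gt : 1 < Q := by
  have := one_lt_phi
  unfold Q
  linarith

theorem A_one_N : A ℂ 1 * N = (Q : ℂ) • (N * A ℂ 1) := by
  rw [A_one]
  have h := phi_sq
  ext i j
  fin_cases i <;> fin_cases j <;>
    simp [N, Q, Matrix.mul_apply, Fin.sum_univ_two] <;>
    first
    | ring1
    | linear_combination (-3 : ℂ) * h
    | linear_combination (3 : ℂ) * h

theorem Q_pos : 0 < Q := lt_trans zero_lt_one Q_gt

/-- the real period -/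
noncomputable def T : ℝ := Real.log Q

theorem T_pos : 0 < T := Real.log_pos Q_gt

theorem exp_T : Complex.exp (T : ℂ) = (Q : ℂ) := by
  rw [← Complex.ofReal_exp, T, Real.exp_log Q_pos]

theorem A_N (n : ℤ) : A ℂ n * N = Complex.exp ((n : ℂ) * T) • (N * A ℂ n) := by
  induction n using Int.induction_on with
  | zero => simp
  | succ i ih =>
    rw [A_add, Matrix.mul_assoc, A_one_N, Matrix.mul_smul, ← Matrix.mul_assoc, ih]
    push_cast
    rw [add_mul, Complex.exp_add, one_mul, exp_T, Matrix.smul_mul, smul_smul, Matrix.mul_assoc,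
      mul_comm (Q : ℂ)]
  | pred i ih =>
    have h1 : A ℂ (-1) * N = Complex.exp (-(T : ℂ)) • (N * A ℂ (-1)) := by
      have h2 : N * A ℂ (-1) = (Q : ℂ) • (A ℂ (-1) * N) := by
        calc N * A ℂ (-1) = A ℂ (-1) * (A ℂ 1 * N) * A ℂ (-1) := by
              rw [← Matrix.mul_assoc (A ℂ (-1)), A_neg_mul, Matrix.one_mul]
          _ = (Q : ℂ) • (A ℂ (-1) * N) := by
              rw [A_one_N, Matrix.mul_smul, Matrix.smul_mul, Matrix.mul_assoc, Matrix.mul_assoc,
                A_mul_neg, Matrix.mul_one]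
      rw [h2, smul_smul, ← exp_T, ← Complex.exp_add]
      simp
    rw [sub_eq_add_neg, A_add, Matrix.mul_assoc, h1, Matrix.mul_smul, ← Matrix.mul_assoc, ih]
    push_cast
    rw [add_mul, Complex.exp_add, Matrix.smul_mul, smul_smul, Matrix.mul_assoc,
      mul_comm (Complex.exp (-(T : ℂ)))]
    congr 2
    congr 1
    ring

end Pool.Agent.Lib.MP1f1fe3
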