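import Mathlib
import Pool.Agent.Lib.MP_1f1fe3_ag.Mat

set_option autoImplicit false
open Matrix Set

namespace Pool.Agent.Lib.MP1f1fe3

/-- entrywise conjugation -/
noncomputable def cj (v : MV) : MV := v.map (starRingEnd ℂ)

theorem cj_mul (v w : MV) : cj (v * w) = cj v * cj w := by
  unfold cj
  rw [Matrix.map_mul]

theorem cj_cj (v : MV) : cj (cj v) = v := by
  ext i j; simp [cj]

theorem cj_add (v w : MV) : cj (v + w) = cj v + cj w := by
  ext i j; simp [cj]

theorem cj_smul (c : ℂ) (v : MV) : cj (c • v) = (starRingEnd ℂ c) • cj v := by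
  ext i j; simp [cj]

theorem cj_A (n : ℤ) : cj (A ℂ n) = A ℂ n := A_map (starRingEnd ℂ) n

theorem cj_N : cj N = N := by
  ext i j
  fin_cases i <;> fin_cases j <;> simp [cj, N]

/-- the antilinear square-zero operator `v ↦ N * conj v`. -/
noncomputable def JM (v : MV) : MV := N * cj v

theorem JM_add (v w : MV) : JM (v + w) = JM v + JM w := by
  simp [JM, cj_add, Matrix.mul_add]

theorem JM_smul (c : ℂ) (v : MV) : JM (c • v) = (starRingEnd ℂ c) • JM v := by
  simp [JM, cj_smul]

theorem JM_J (v : MV) : JM (JM v) = 0 := by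
  simp only [JM, cj_mul, cj_cj, cj_N]
  rw [← Matrix.mul_assoc, N_mul_N, Matrix.zero_mul]

theorem JM_zero : JM 0 = 0 := by
  simpa using JM_smul 0 0

theorem JM_neg (v : MV) : JM (-v) = - JM v := by
  simpa using JM_smul (-1) v

theorem JM_sub (v w : MV) : JM (v - w) = JM v - JM w := by
  rw [sub_eq_add_neg, JM_add, JM_neg, ← sub_eq_add_neg]

/-- `w ↦ M0^n w M0^m`. -/
noncomputable def actM (n m : ℤ) (w : MV) : MV := A ℂ n * w * A ℂ m

theorem actM_zero_zero (w : MV) : actM 0 0 w = w := by simp [actM]

theorem actM_add_vec (n m : ℤ) (v w : MV) : actM n m (v + w) = actM n m v + actM n m w := by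
  simp [actM, Matrix.mul_add, Matrix.add_mul]

theorem actM_smul (n m : ℤ) (c : ℂ) (w : MV) : actM n m (c • w) = c • actM n m w := by
  simp [actM]

theorem actM_act (n m n' m' : ℤ) (w : MV) : actM n m (actM n' m' w) = actM (n + n') (m' + m) w := by
  simp [actM, A_add, Matrix.mul_assoc]

theorem actM_sub_vec (n m : ℤ) (v w : MV) : actM n m (v - w) = actM n m v - actM n m w := by
  simp [actM, Matrix.mul_sub, Matrix.sub_mul]

theorem JM_act (n m : ℤ) (w : MV) : Complex.exp ((n : ℂ) * T) • JM (actM n m w) = actM n m (JM w) := by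
  simp only [JM, actM, cj_mul, cj_A]
  rw [← Matrix.mul_assoc (A ℂ n) N, A_N]
  simp only [Matrix.smul_mul, Matrix.mul_assoc]

/-- `V` is the normed space of complex `2 × 2` arrays. -/
abbrev V := Fin 2 → Fin 2 → ℂ

/-- the antilinear square-zero operator `v ↦ N * conj v`. -/
noncomputable def J (v : V) : V := JM v

/-- `w ↦ M0^n w M0^m`. -/
noncomputable def act (n m : ℤ) (w : V) : V := actM n m w

theorem J_add (v w : V) : J (v + w) = J v + J w := JM_add v w

theorem J_smul (c : ℂ) (v : V) : J (c • v) = (starRingEnd ℂ c) • J v := JM_smul c v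

theorem J_J (v : V) : J (J v) = 0 := JM_J v

theorem J_zero : J 0 = 0 := JM_zero

theorem J_neg (v : V) : J (-v) = - J v := JM_neg v

theorem J_sub (v w : V) : J (v - w) = J v - J w := JM_sub v w

theorem act_zero_zero (w : V) : act 0 0 w = w := actM_zero_zero w

theorem act_add_vec (n m : ℤ) (v w : V) : act n m (v + w) = act n m v + act n m w :=
  actM_add_vec n m v w

theorem act_smul (n m : ℤ) (c : ℂ) (w : V) : act n m (c • w) = c • act n m w :=
  actM_smul n m c w

theorem act_act (n m n' m' : ℤ) (w : V) : act n m (act n' m' w) = act (n + n') (m' + m) w :=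
  actM_act n m n' m' w

theorem act_sub_vec (n m : ℤ) (v w : V) : act n m (v - w) = act n m v - act n m w :=
  actM_sub_vec n m v w

theorem J_act (n m : ℤ) (w : V) : Complex.exp ((n : ℂ) * T) • J (act n m w) = act n m (J w) :=
  JM_act n m w

/-- real-linear version of `J` -/
noncomputable def JL : V →ₗ[ℝ] V where
  toFun := J
  map_add' := J_add
  map_smul' c v := by
    have := J_smul (c : ℂ) v
    rw [Complex.conj_ofReal] at this
    exact this

theorem JL_apply (v : V) : JL v = J v := rfl

/-- complex-linear version of `act` -/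
noncomputable def actL (n m : ℤ) : V →ₗ[ℂ] V where
  toFun := act n m
  map_add' := act_add_vec n m
  map_smul' := act_smul n m

/-- The deck group. -/
@[ext] structure G where
  m : ℤ
  n : ℤ
  l : Matrix (Fin 2) (Fin 2) GaussianInt

/-- lattice embedding -/
noncomputable def embM (l : Matrix (Fin 2) (Fin 2) GaussianInt) : MV := l.map GaussianInt.toComplex

theorem embM_mul (l l' : Matrix (Fin 2) (Fin 2) GaussianInt) : embM (l * l') = embM l * embM l' := by
  unfold embM
  rw [Matrix.map_mul]

theorem embM_A (n : ℤ) : embM (A GaussianInt n) = A ℂ n := A_map GaussianInt.toComplex n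

/-- lattice embedding -/
noncomputable def emb (l : Matrix (Fin 2) (Fin 2) GaussianInt) : V := embM l

theorem emb_apply (l : Matrix (Fin 2) (Fin 2) GaussianInt) (i j : Fin 2) :
    emb l i j = GaussianInt.toComplex (l i j) := rfl

theorem emb_add (l l' : Matrix (Fin 2) (Fin 2) GaussianInt) : emb (l + l') = emb l + emb l' := by
  ext i j; simp [emb_apply]

theorem emb_act (n m : ℤ) (l : Matrix (Fin 2) (Fin 2) GaussianInt) :
    emb (A GaussianInt n * l * A GaussianInt m) = act n m (emb l) := by
  change embM (A GaussianInt n * l * A GaussianInt m) = actM n m (embM l)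
  rw [embM_mul, embM_mul, embM_A, embM_A]
  rfl

theorem emb_zero : emb 0 = 0 := by
  ext i j; simp [emb_apply]

theorem emb_neg (l : Matrix (Fin 2) (Fin 2) GaussianInt) : emb (-l) = -emb l := by
  ext i j; simp [emb_apply]

namespace G

instance : Mul G := ⟨fun a b => ⟨a.m + b.m, a.n + b.n, a.l + A GaussianInt a.n * b.l * A GaussianInt a.m⟩⟩
instance : One G := ⟨⟨0, 0, 0⟩⟩
instance : Inv G := ⟨fun a => ⟨-a.m, -a.n, -(A GaussianInt (-a.n) * a.l * A GaussianInt (-a.m))⟩⟩

@[simp] theorem mul_m (a b : G) : (a * b).m = a.m + b.m := rfl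
@[simp] theorem mul_n (a b : G) : (a * b).n = a.n + b.n := rfl
@[simp] theorem mul_l (a b : G) :
    (a * b).l = a.l + A GaussianInt a.n * b.l * A GaussianInt a.m := rfl
@[simp] theorem one_m : (1 : G).m = 0 := rfl
@[simp] theorem one_n : (1 : G).n = 0 := rfl
@[simp] theorem one_l : (1 : G).l = 0 := rfl
@[simp] theorem inv_m (a : G) : (a⁻¹).m = -a.m := rfl
@[simp] theorem inv_n (a : G) : (a⁻¹).n = -a.n := rfl
@[simp] theorem inv_l (a : G) :
    (a⁻¹).l = -(A GaussianInt (-a.n) * a.l * A GaussianInt (-a.m)) := rfl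

instance : Group G :=
  Group.ofLeftAxioms
    (by
      intro a b c
      ext : 1
      · simp [add_assoc]
      · simp [add_assoc]
      · simp only [mul_l, mul_m, mul_n, A_add, Matrix.mul_add, Matrix.add_mul, Matrix.mul_assoc,
          add_assoc]
        rw [← A_add, ← A_add, add_comm a.m b.m])
    (by
      intro a
      ext : 1 <;> simp)
    (by
      intro a
      ext : 1
      · simp
      · simp
      · simp)

end G

/-- The real-analytic model of the universal cover. -/
abbrev U := ℂ × V

/-- translation part in the base -/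
noncomputable def om (g : G) : ℂ := 2 * Real.pi * Complex.I * g.m + g.n * T

theorem om_mul (a b : G) : om (a * b) = om a + om b := by
  simp [om]; ring

theorem exp_om (g : G) : Complex.exp (om g) = Complex.exp ((g.n : ℂ) * T) := by
  unfold om
  rw [Complex.exp_add]
  have : Complex.exp (2 * Real.pi * Complex.I * g.m) = 1 := by
    rw [mul_comm]
    exact Complex.exp_int_mul_two_pi_mul_I g.m
  rw [this, one_mul]

noncomputable instance : MulAction G U where
  smul g u := (u.1 + om g, act g.n g.m u.2 + emb g.l)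
  one_smul u := by
    change (u.1 + om 1, act (1 : G).n (1 : G).m u.2 + emb (1 : G).l) = u
    simp [om, act_zero_zero, emb_zero]
  mul_smul a b u := by
    change (u.1 + om (a * b), act (a * b).n (a * b).m u.2 + emb (a * b).l) =
      ((u.1 + om b) + om a, act a.n a.m (act b.n b.m u.2 + emb b.l) + emb a.l)
    ext1
    · simp only [om_mul]; ring
    · simp only [G.mul_l, G.mul_m, G.mul_n, act_add_vec, act_act, emb_add, emb_act]
      rw [add_comm a.m b.m]
      abel

theorem smul_def (g : G) (u : U) : g • u = (u.1 + om g, act g.n g.m u.2 + emb g.l) := rfl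

end Pool.Agent.Lib.MP1f1fe3
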