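import Mathlib

set_option autoImplicit false
open scoped Manifold ContDiff Topology
open Set Function

namespace Pool.Agent.Lib.MP1f1fe3

/-- A covering `p : E → M` of a topological space by a normed space, together with a family of
deck maps `D` acting transitively on fibres, such that the atlas of `M` consists of the local
inverses of `p`. -/
structure NiceCover {E M ι : Type*} [NormedAddCommGroup E] [TopologicalSpace M]
    [ChartedSpace E M] (D : ι → E → E) (p : E → M) : Prop where
  homeo : IsLocalHomeomorph p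
  surj : Function.Surjective p
  atlas_symm : ∀ c ∈ atlas E M, ⇑c.symm = p
  mem_atlas : ∀ φ : OpenPartialHomeomorph E M, ⇑φ = p → φ.symm ∈ atlas E M
  deck_cont : ∀ i, Continuous (D i)
  deck : ∀ i x, p (D i x) = p x
  trans : ∀ x y, p x = p y → ∃ i, D i x = y

/-- The charted space structure by local inverses. -/
@[reducible] noncomputable def coverCharted {E M : Type*} [TopologicalSpace E]
    [TopologicalSpace M] {p : E → M} (hp : IsLocalHomeomorph p) (hs : Function.Surjective p) :
    ChartedSpace E M where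
  atlas := {c | ∃ φ : OpenPartialHomeomorph E M, ⇑φ = p ∧ c = φ.symm}
  chartAt x := ((hp (Function.surjInv hs x)).choose).symm
  mem_chart_source x := by
    have h := (hp (Function.surjInv hs x)).choose_spec
    have h1 := OpenPartialHomeomorph.map_source _ h.1
    rw [← h.2, Function.surjInv_eq hs x] at h1
    exact h1
  chart_mem_atlas x := by
    have h := (hp (Function.surjInv hs x)).choose_spec
    exact ⟨_, h.2.symm, rfl⟩

theorem niceCover_coverCharted {E M ι : Type*} [NormedAddCommGroup E] [TopologicalSpace M]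
    {p : E → M} (hp : IsLocalHomeomorph p) (hs : Function.Surjective p) (D : ι → E → E)
    (hc : ∀ i, Continuous (D i)) (hd : ∀ i x, p (D i x) = p x)
    (ht : ∀ x y, p x = p y → ∃ i, D i x = y) :
    let _ := coverCharted hp hs
    NiceCover D p := by
  let _ := coverCharted hp hs
  refine ⟨hp, hs, ?_, ?_, hc, hd, ht⟩
  · rintro c ⟨φ, hφ, rfl⟩
    simpa using hφ
  · intro φ hφ
    exact ⟨φ, hφ, rfl⟩

section Smooth

variable {𝕜 : Type*} [NontriviallyNormedField 𝕜] {E M ι : Type*} [NormedAddCommGroup E]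
  [NormedSpace 𝕜 E] [TopologicalSpace M] [ChartedSpace E M] {D : ι → E → E} {p : E → M}
  {n : WithTop ℕ∞}

theorem NiceCover.chart_comp_contDiffAt (h : NiceCover D p) (hD : ∀ i, ContDiff 𝕜 n (D i))
    {c : OpenPartialHomeomorph M E} (hc : ⇑c.symm = p) {x : E} (hx : p x ∈ c.source) :
    ContDiffAt 𝕜 n (c ∘ p) x := by
  have h1 : p x = p (c (p x)) := by
    rw [← hc]
    rw [c.left_inv (by rw [hc]; exact hx)]
  obtain ⟨i, hi⟩ := h.trans _ _ h1
  have h2 : ∀ᶠ y in 𝓝 x, D i y ∈ c.target := by
    apply (h.deck_cont i).continuousAt.eventually_mem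
    rw [hi]
    exact c.open_target.mem_nhds (c.map_source hx)
  have h3 : c ∘ p =ᶠ[𝓝 x] D i := by
    filter_upwards [h2] with y hy
    simp only [comp_apply]
    rw [← h.deck i y, ← hc, c.right_inv hy]
  exact (hD i).contDiffAt.congr_of_eventuallyEq h3

theorem NiceCover.isManifold (h : NiceCover D p) (hD : ∀ i, ContDiff 𝕜 n (D i)) :
    IsManifold 𝓘(𝕜, E) n M := by
  apply isManifold_of_contDiffOn
  intro c c' hc hc'
  simp only [modelWithCornersSelf_coe, modelWithCornersSelf_coe_symm, comp_id, id_comp,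
    preimage_id_eq, id_eq, range_id, inter_univ]
  intro x hx
  have hx' : p x ∈ c'.source := by
    rw [OpenPartialHomeomorph.trans_source] at hx
    have := hx.2
    rw [mem_preimage, h.atlas_symm c hc] at this
    exact this
  have := h.chart_comp_contDiffAt hD (h.atlas_symm c' hc') hx'
  rw [OpenPartialHomeomorph.coe_trans, h.atlas_symm c hc]
  exact this.contDiffWithinAt

theorem NiceCover.contMDiff_proj (h : NiceCover D p) (hD : ∀ i, ContDiff 𝕜 n (D i)) :
    ContMDiff 𝓘(𝕜, E) 𝓘(𝕜, E) n p := by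
  intro x
  rw [contMDiffAt_iff]
  refine ⟨h.homeo.continuous.continuousAt, ?_⟩
  have h1 := h.chart_comp_contDiffAt hD (h.atlas_symm (chartAt E (p x)) (chart_mem_atlas E (p x)))
    (mem_chart_source E (p x))
  simpa [chartAt_self_eq] using h1.contDiffWithinAt (s := univ)

/-- local section of the covering given by a chart -/
theorem NiceCover.chart_contMDiffAt (_h : NiceCover D p) [IsManifold 𝓘(𝕜, E) n M]
    {c : OpenPartialHomeomorph M E} (hc : c ∈ atlas E M) {y : M} (hy : y ∈ c.source) :
    ContMDiffAt 𝓘(𝕜, E) 𝓘(𝕜, E) n c y :=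
  contMDiffAt_of_mem_maximalAtlas (IsManifold.subset_maximalAtlas hc) hy

theorem NiceCover.section_spec (h : NiceCover D p) {c : OpenPartialHomeomorph M E}
    (hc : c ∈ atlas E M) {y : M} (hy : y ∈ c.source) : ∀ᶠ z in 𝓝 y, p (c z) = z := by
  filter_upwards [c.open_source.mem_nhds hy] with z hz
  rw [← h.atlas_symm c hc, c.left_inv hz]

/-- Descent of smoothness along the covering. -/
theorem NiceCover.contMDiff_of_comp (h : NiceCover D p) [IsManifold 𝓘(𝕜, E) n M]
    {F : Type*} [NormedAddCommGroup F] [NormedSpace 𝕜 F] {H : Type*} [TopologicalSpace H]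
    {I : ModelWithCorners 𝕜 F H} {N : Type*} [TopologicalSpace N] [ChartedSpace H N]
    {f : M → N} (hf : ContMDiff 𝓘(𝕜, E) I n (f ∘ p)) : ContMDiff 𝓘(𝕜, E) I n f := by
  intro y
  have hc := chart_mem_atlas E y
  have h1 := h.chart_contMDiffAt (𝕜 := 𝕜) (n := n) hc (mem_chart_source E y)
  have h2 := (hf (chartAt E y y)).comp y h1
  refine h2.congr_of_eventuallyEq ?_
  filter_upwards [h.section_spec hc (mem_chart_source E y)] with z hz
  simp [hz]

/-- Descent of smoothness along the covering, with a parameter. -/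
theorem NiceCover.contMDiff_of_comp_prod (h : NiceCover D p) [IsManifold 𝓘(𝕜, E) n M]
    {F : Type*} [NormedAddCommGroup F] [NormedSpace 𝕜 F] {H : Type*} [TopologicalSpace H]
    {I : ModelWithCorners 𝕜 F H} {N : Type*} [TopologicalSpace N] [ChartedSpace H N]
    {f : 𝕜 × M → N} (hf : ContMDiff (𝓘(𝕜, 𝕜).prod 𝓘(𝕜, E)) I n (fun q : 𝕜 × E => f (q.1, p q.2))) :
    ContMDiff (𝓘(𝕜, 𝕜).prod 𝓘(𝕜, E)) I n f := by
  rintro ⟨t, y⟩
  have hc := chart_mem_atlas E y
  have h1 := h.chart_contMDiffAt (𝕜 := 𝕜) (n := n) hc (mem_chart_source E y)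
  have h3 : ContMDiffAt (𝓘(𝕜, 𝕜).prod 𝓘(𝕜, E)) (𝓘(𝕜, 𝕜).prod 𝓘(𝕜, E)) n
      (fun q : 𝕜 × M => (q.1, chartAt E y q.2)) (t, y) := by
    refine contMDiffAt_fst.prodMk ?_
    exact ContMDiffAt.comp (t, y) (g := chartAt E y) (f := Prod.snd) h1 contMDiffAt_snd
  have h2 := ContMDiffAt.comp (t, y) (hf (t, chartAt E y y)) h3
  refine h2.congr_of_eventuallyEq ?_
  have h4 : ∀ᶠ q : 𝕜 × M in 𝓝 (t, y), p (chartAt E y q.2) = q.2 :=
    continuous_snd.continuousAt.eventually (h.section_spec hc (mem_chart_source E y))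
  filter_upwards [h4] with q hq
  simp [hq]

/-- Lifts of smooth maps are smooth. -/
theorem NiceCover.contMDiff_lift (h : NiceCover D p) [IsManifold 𝓘(𝕜, E) n M]
    {F : Type*} [NormedAddCommGroup F] [NormedSpace 𝕜 F] {H : Type*} [TopologicalSpace H]
    {I : ModelWithCorners 𝕜 F H} {N : Type*} [TopologicalSpace N] [ChartedSpace H N]
    {f : N → M} (hf : ContMDiff I 𝓘(𝕜, E) n f) {g : N → E} (hg : Continuous g)
    (hfg : ∀ x, p (g x) = f x) : ContMDiff I 𝓘(𝕜, E) n g := by
  intro x
  obtain ⟨φ, hφ, hφp⟩ := h.homeo (g x)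
  have hc := h.mem_atlas φ hφp.symm
  have hx : f x ∈ φ.symm.source := by
    rw [← hfg x, hφp]
    simpa using φ.map_source hφ
  have h1 := h.chart_contMDiffAt (𝕜 := 𝕜) (n := n) hc hx
  have h2 := ContMDiffAt.comp x h1 (hf x)
  refine h2.congr_of_eventuallyEq ?_
  filter_upwards [hg.continuousAt.eventually_mem (φ.open_source.mem_nhds hφ)] with y hy
  simp only [comp_apply]
  rw [← hfg y, hφp, φ.left_inv hy]

end Smooth

section Lift

variable {E M ι : Type*} [NormedAddCommGroup E]
  [TopologicalSpace M] [ChartedSpace E M] {D : ι → E → E} {p : E → M}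

/-- The endpoint of a homotopy starting at the identity lifts to a map commuting with the deck
maps. -/
theorem NiceCover.exists_lift (h : NiceCover D p) (hcov : IsCoveringMap p)
    (hinv : ∀ i, ∃ j, (∀ x, D j (D i x) = x) ∧ ∀ x, D i (D j x) = x)
    {H : ℝ → M → M} (hH : Continuous (fun q : ℝ × M => H q.1 q.2)) (h0 : H 0 = id) :
    ∃ g : E → E, Continuous g ∧ (∀ x, p (g x) = H 1 (p x)) ∧ ∀ i x, g (D i x) = D i (g x) := by
  let K : C(unitInterval × E, M) :=
    ⟨fun q => H q.1 (p q.2), hH.comp ((continuous_subtype_val.comp continuous_fst).prodMk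
      (hcov.continuous.comp continuous_snd))⟩
  have hK0 : ∀ a : E, K (0, a) = p (ContinuousMap.id E a) := by
    intro a
    simp [K, h0]
  let L := hcov.liftHomotopy K (ContinuousMap.id E) hK0
  have hL1 : p ∘ L = K := hcov.liftHomotopy_lifts K _ hK0
  have hL0 : ∀ a, L (0, a) = a := fun a => hcov.liftHomotopy_zero K _ hK0 a
  refine ⟨fun x => L (1, x), L.continuous.comp (Continuous.prodMk_right 1), ?_, ?_⟩
  · intro x
    have := congr_fun hL1 (1, x)
    simpa [K] using this
  · intro i x
    obtain ⟨j, hj1, hj2⟩ := hinv i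
    have key : (fun q : unitInterval × E => D j (L (q.1, D i q.2))) = L := by
      refine (hcov.eq_liftHomotopy_iff hK0 _).mpr ⟨?_, ?_, ?_⟩
      · intro a
        have hc : Continuous (fun t : unitInterval => ((t, D i a) : unitInterval × E)) :=
          continuous_id.prodMk continuous_const
        exact (h.deck_cont j).comp (L.continuous.comp hc)
      · funext q
        simp only [comp_apply, h.deck]
        have h1 := congr_fun hL1 (q.1, D i q.2)
        simp only [comp_apply] at h1
        rw [h1]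
        simp [K, h.deck]
      · intro a
        simp [hL0, hj1]
    have h2 := congr_fun key (1, x)
    simp only at h2
    change L (1, D i x) = D i (L (1, x))
    rw [← h2, hj2]

end Lift

end Pool.Agent.Lib.MP1f1fe3
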