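import Mathlib
import Pool.Agent.Lib.MP_1f1fe3_ag.Act

set_option autoImplicit false
open scoped Topology ContDiff
open Matrix Set

namespace Pool.Agent.Lib.MP1f1fe3

/-- continuous linear version of `act` -/
noncomputable def actC (n m : ℤ) : V →L[ℂ] V := LinearMap.toContinuousLinearMap (actL n m)

theorem actC_apply (n m : ℤ) (w : V) : actC n m w = act n m w := rfl

/-- continuous real-linear version of `J` -/
noncomputable def JC : V →L[ℝ] V := LinearMap.toContinuousLinearMap JL

theorem JC_apply (w : V) : JC w = J w := rfl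

theorem act_continuous (n m : ℤ) : Continuous (act n m) := (actC n m).continuous

theorem J_continuous : Continuous J := JC.continuous

instance : ContinuousConstSMul G U where
  continuous_const_smul g := by
    change Continuous (fun u : U => (u.1 + om g, act g.n g.m u.2 + emb g.l))
    exact (continuous_fst.add continuous_const).prodMk
      (((act_continuous _ _).comp continuous_snd).add continuous_const)

theorem om_re (g : G) : (om g).re = g.n * T := by
  simp [om]

theorem om_im (g : G) : (om g).im = 2 * Real.pi * g.m := by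
  simp [om]

theorem finite_gaussian (C : ℝ) : {x : GaussianInt | ‖GaussianInt.toComplex x‖ ≤ C}.Finite := by
  have h : {x : GaussianInt | ‖GaussianInt.toComplex x‖ ≤ C} ⊆
      (fun q : ℤ × ℤ => (⟨q.1, q.2⟩ : GaussianInt)) '' (Icc (-⌈C⌉) ⌈C⌉ ×ˢ Icc (-⌈C⌉) ⌈C⌉) := by
    intro x hx
    refine ⟨(x.re, x.im), ?_, rfl⟩
    have h1 : |(x.re : ℝ)| ≤ C := by
      have := (Complex.abs_re_le_norm (GaussianInt.toComplex x)).trans hx
      simpa using this
    have h2 : |(x.im : ℝ)| ≤ C := by
      have := (Complex.abs_im_le_norm (GaussianInt.toComplex x)).trans hx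
      simpa using this
    rw [abs_le] at h1 h2
    simp only [mem_prod, mem_Icc]
    refine ⟨⟨?_, ?_⟩, ⟨?_, ?_⟩⟩
    · have : (-(⌈C⌉ : ℤ) : ℝ) ≤ x.re := by
        have := Int.le_ceil C
        linarith
      exact_mod_cast this
    · have : (x.re : ℝ) ≤ (⌈C⌉ : ℤ) := by
        have := Int.le_ceil C
        linarith
      exact_mod_cast this
    · have : (-(⌈C⌉ : ℤ) : ℝ) ≤ x.im := by
        have := Int.le_ceil C
        linarith
      exact_mod_cast this
    · have : (x.im : ℝ) ≤ (⌈C⌉ : ℤ) := by
        have := Int.le_ceil C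
        linarith
      exact_mod_cast this
  exact Set.Finite.subset (Set.Finite.image _ ((Set.finite_Icc _ _).prod (Set.finite_Icc _ _))) h

theorem finite_emb (C : ℝ) : {l : Matrix (Fin 2) (Fin 2) GaussianInt | ‖emb l‖ ≤ C}.Finite := by
  have hF := finite_gaussian C
  have h1 : (Set.pi univ fun _ : Fin 2 => Set.pi univ fun _ : Fin 2 =>
      {x : GaussianInt | ‖GaussianInt.toComplex x‖ ≤ C}).Finite :=
    Set.Finite.pi fun _ => Set.Finite.pi fun _ => hF
  refine h1.subset ?_
  intro l hl i _ j _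
  have h2 : ‖emb l i j‖ ≤ ‖emb l‖ := (norm_le_pi_norm (emb l i) j).trans (norm_le_pi_norm (emb l) i)
  exact (h2.trans hl)

instance : IsCancelSMul G U := by
  rw [isCancelSMul_iff_eq_one_of_smul_eq]
  intro g x hx
  rw [smul_def] at hx
  have h1 : x.1 + om g = x.1 := congrArg Prod.fst hx
  have h2 : act g.n g.m x.2 + emb g.l = x.2 := congrArg Prod.snd hx
  have h3 : om g = 0 := by simpa using h1
  have h4 := congrArg Complex.re h3
  have h5 := congrArg Complex.im h3
  rw [om_re] at h4
  rw [om_im] at h5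
  have hn : g.n = 0 := by
    have := T_pos
    simp only [Complex.zero_re, mul_eq_zero] at h4
    rcases h4 with h | h
    · exact_mod_cast h
    · linarith
  have hm : g.m = 0 := by
    have := Real.pi_pos
    simp only [Complex.zero_im, mul_eq_zero] at h5
    rcases h5 with (h | h) | h
    · norm_num at h
    · linarith
    · exact_mod_cast h
  rw [hn, hm, act_zero_zero] at h2
  have h6 : emb g.l = 0 := by simpa using h2
  ext : 1
  · simpa using hm
  · simpa using hn
  · apply Matrix.ext
    intro i j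
    have := congrFun (congrFun h6 i) j
    rw [emb_apply] at this
    simpa using this

theorem norm_le_of_mem {K : Set U} (hK : IsCompact K) : ∃ R : ℝ, 0 ≤ R ∧ ∀ x ∈ K, ‖x‖ ≤ R := by
  obtain ⟨R, hR⟩ := hK.isBounded.exists_norm_le
  exact ⟨max R 0, le_max_right _ _, fun x hx => (hR x hx).trans (le_max_left _ _)⟩

instance : ProperlyDiscontinuousSMul G U where
  finite_disjoint_inter_image := by
    intro K L hK hL
    obtain ⟨R₁, hR₁0, hR₁⟩ := norm_le_of_mem hK
    obtain ⟨R₂, hR₂0, hR₂⟩ := norm_le_of_mem hL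
    set R := max R₁ R₂ with hR
    have hR0 : 0 ≤ R := hR₁0.trans (le_max_left _ _)
    have hKR : ∀ x ∈ K, ‖x‖ ≤ R := fun x hx => (hR₁ x hx).trans (le_max_left _ _)
    have hLR : ∀ x ∈ L, ‖x‖ ≤ R := fun x hx => (hR₂ x hx).trans (le_max_right _ _)
    obtain ⟨B, hB⟩ := exists_nat_ge (2 * R / T)
    obtain ⟨B', hB'⟩ := exists_nat_ge (2 * R / (2 * Real.pi))
    have hT := T_pos
    have hpi := Real.pi_pos
    have hsub : {γ : G | ((fun x => γ • x) '' K ∩ L).Nonempty} ⊆
        ⋃ q ∈ (Icc (-(B' : ℤ)) B' ×ˢ Icc (-(B : ℤ)) B : Set (ℤ × ℤ)),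
          (fun l => (⟨q.1, q.2, l⟩ : G)) '' {l | ‖emb l‖ ≤ R + ‖actC q.2 q.1‖ * R} := by
      rintro g ⟨y, ⟨x, hx, rfl⟩, hy⟩
      have hx1 := hKR x hx
      have hy1 := hLR _ hy
      simp only [smul_def] at hy1
      have ha : ‖x.1‖ ≤ R := (norm_fst_le x).trans hx1
      have hb : ‖x.2‖ ≤ R := (norm_snd_le x).trans hx1
      have hc : ‖x.1 + om g‖ ≤ R := (norm_fst_le _).trans hy1
      have hd : ‖act g.n g.m x.2 + emb g.l‖ ≤ R := (norm_snd_le _).trans hy1
      have hom : ‖om g‖ ≤ 2 * R := by
        have : om g = (x.1 + om g) - x.1 := by ring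
        rw [this]
        calc _ ≤ ‖x.1 + om g‖ + ‖x.1‖ := norm_sub_le _ _
          _ ≤ _ := by linarith
      have hre := (Complex.abs_re_le_norm (om g)).trans hom
      have him := (Complex.abs_im_le_norm (om g)).trans hom
      rw [om_re] at hre
      rw [om_im] at him
      have hn : |(g.n : ℝ)| ≤ B := by
        rw [abs_mul, abs_of_pos hT] at hre
        have : |(g.n : ℝ)| ≤ 2 * R / T := by
          rw [le_div_iff₀ hT]; exact hre
        linarith
      have hm : |(g.m : ℝ)| ≤ B' := by
        rw [abs_mul, abs_of_pos (by positivity)] at him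
        have : |(g.m : ℝ)| ≤ 2 * R / (2 * Real.pi) := by
          rw [le_div_iff₀ (by positivity)]; linarith
        linarith
      simp only [mem_iUnion, exists_prop]
      refine ⟨(g.m, g.n), ?_, g.l, ?_, rfl⟩
      · rw [abs_le] at hn hm
        simp only [mem_prod, mem_Icc]
        exact ⟨⟨by exact_mod_cast hm.1, by exact_mod_cast hm.2⟩,
          ⟨by exact_mod_cast hn.1, by exact_mod_cast hn.2⟩⟩
      · change ‖emb g.l‖ ≤ R + ‖actC g.n g.m‖ * R
        have h1 : emb g.l = (act g.n g.m x.2 + emb g.l) - act g.n g.m x.2 := by abel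
        rw [h1]
        calc _ ≤ ‖act g.n g.m x.2 + emb g.l‖ + ‖act g.n g.m x.2‖ := norm_sub_le _ _
          _ ≤ R + ‖actC g.n g.m‖ * ‖x.2‖ := by
              gcongr
              exact (actC g.n g.m).le_opNorm x.2
          _ ≤ _ := by gcongr
    refine Set.Finite.subset ?_ hsub
    refine Set.Finite.biUnion ((Set.finite_Icc _ _).prod (Set.finite_Icc _ _)) ?_
    intro q _
    exact (finite_emb _).image _

theorem exists_smul_mem : ∃ R : ℝ, ∀ u : U, ∃ g : G, ‖g • u‖ ≤ R := by
  have hT := T_pos
  have hpi := Real.pi_pos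
  refine ⟨max (T + 2 * Real.pi) 2, ?_⟩
  intro u
  set n : ℤ := -⌊u.1.re / T⌋ with hn
  set m : ℤ := -⌊u.1.im / (2 * Real.pi)⌋ with hm
  set v : V := act n m u.2 with hv
  let l : Matrix (Fin 2) (Fin 2) GaussianInt := fun i j => ⟨-⌊(v i j).re⌋, -⌊(v i j).im⌋⟩
  refine ⟨⟨m, n, l⟩, ?_⟩
  rw [smul_def, Prod.norm_def]
  apply max_le_max
  · have h1 : |(u.1 + om ⟨m, n, l⟩).re| ≤ T := by
      rw [Complex.add_re, om_re]
      have h2 : u.1.re + (n : ℝ) * T = T * Int.fract (u.1.re / T) := by
        rw [Int.fract, hn]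
        push_cast
        field_simp
        ring
      change |u.1.re + (n : ℝ) * T| ≤ T
      rw [h2, abs_mul, abs_of_pos hT, abs_of_nonneg (Int.fract_nonneg _)]
      have := (Int.fract_lt_one (u.1.re / T)).le
      nlinarith
    have h3 : |(u.1 + om ⟨m, n, l⟩).im| ≤ 2 * Real.pi := by
      rw [Complex.add_im, om_im]
      have h2 : u.1.im + 2 * Real.pi * (m : ℝ) =
          2 * Real.pi * Int.fract (u.1.im / (2 * Real.pi)) := by
        rw [Int.fract, hm]
        push_cast
        field_simp
        ring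
      change |u.1.im + 2 * Real.pi * (m : ℝ)| ≤ 2 * Real.pi
      rw [h2, abs_mul, abs_of_pos (by positivity), abs_of_nonneg (Int.fract_nonneg _)]
      have := (Int.fract_lt_one (u.1.im / (2 * Real.pi))).le
      nlinarith
    exact (Complex.norm_le_abs_re_add_abs_im _).trans (add_le_add h1 h3)
  · rw [pi_norm_le_iff_of_nonneg (by norm_num)]
    intro i
    rw [pi_norm_le_iff_of_nonneg (by norm_num)]
    intro j
    have h1 : (act n m u.2 + emb l) i j = ⟨Int.fract (v i j).re, Int.fract (v i j).im⟩ := by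
      have hl : emb l i j = ⟨-(⌊(v i j).re⌋ : ℝ), -(⌊(v i j).im⌋ : ℝ)⟩ := by
        rw [emb_apply]
        apply Complex.ext <;> simp [l]
      change v i j + emb l i j = _
      rw [hl]
      apply Complex.ext
      · simp [Int.fract, sub_eq_add_neg]
      · simp [Int.fract, sub_eq_add_neg]
    change ‖(act n m u.2 + emb l) i j‖ ≤ 2
    rw [h1]
    refine (Complex.norm_le_abs_re_add_abs_im _).trans ?_
    simp only
    rw [abs_of_nonneg (Int.fract_nonneg _), abs_of_nonneg (Int.fract_nonneg _)]
    have h2 := (Int.fract_lt_one (v i j).re).le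
    have h3 := (Int.fract_lt_one (v i j).im).le
    linarith

end Pool.Agent.Lib.MP1f1fe3
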