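import Mathlib
import Pool.Agent.Lib.MP_1f1fe3_ag.Top
import Pool.Agent.Lib.MP_1f1fe3_ag.Cover

set_option autoImplicit false
open scoped Topology ContDiff Manifold
open Set

namespace Pool.Agent.Lib.MP1f1fe3

/-- The twisted coordinates `(z, v) ↦ (z, v - exp z • N * conj v)`. -/
noncomputable def Psi : U ≃ₜ U where
  toFun u := (u.1, u.2 - Complex.exp u.1 • J u.2)
  invFun u := (u.1, u.2 + Complex.exp u.1 • J u.2)
  left_inv u := by
    ext1
    · rfl
    · simp [J_sub, J_smul, J_J]
  right_inv u := by
    ext1
    · rfl
    · simp [J_add, J_smul, J_J]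
  continuous_toFun := by
    have := J_continuous
    fun_prop
  continuous_invFun := by
    have := J_continuous
    fun_prop

theorem Psi_apply (u : U) : Psi u = (u.1, u.2 - Complex.exp u.1 • J u.2) := rfl

theorem Psi_symm_apply (u : U) : Psi.symm u = (u.1, u.2 + Complex.exp u.1 • J u.2) := rfl

/-- deck transformations in holomorphic coordinates -/
noncomputable def DW (g : G) (w : U) : U :=
  (w.1 + om g, act g.n g.m w.2 + emb g.l - Complex.exp (w.1 + om g) • J (emb g.l))

theorem Psi_smul (g : G) (u : U) : Psi (g • u) = DW g (Psi u) := by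
  rw [smul_def, Psi_apply, Psi_apply, DW]
  ext1
  · rfl
  · simp only [J_add, smul_add, act_sub_vec, act_smul]
    rw [Complex.exp_add, exp_om, mul_smul, J_act, mul_smul]
    abel

/-- holomorphic continuity of the deck maps -/
theorem contDiff_DW (g : G) (n : WithTop ℕ∞) : ContDiff ℂ n (DW g) := by
  have h : DW g = fun w : U =>
      (w.1 + om g, actC g.n g.m w.2 + emb g.l - Complex.exp (w.1 + om g) • J (emb g.l)) := rfl
  rw [h]
  have h2 : ContDiff ℂ n (fun w : U => actC g.n g.m w.2) :=
    (actC g.n g.m).contDiff.comp contDiff_snd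
  have h3 : ContDiff ℂ n (fun w : U => Complex.exp (w.1 + om g)) :=
    Complex.contDiff_exp.comp (contDiff_fst.add contDiff_const)
  exact (contDiff_fst.add contDiff_const).prodMk ((h2.add contDiff_const).sub
    (h3.smul contDiff_const))

/-- The model space. -/
abbrev E5 := EuclideanSpace ℂ (Fin 5)

/-- a linear identification with the model space -/
noncomputable def Lin : U ≃L[ℂ] E5 :=
  ContinuousLinearEquiv.ofFinrankEq (by
    have h : Module.finrank ℂ V = 4 := by
      rw [Module.finrank_pi_fintype]
      simp
    rw [Module.finrank_prod, h]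
    simp)

/-- identification of the real-analytic model with the model space -/
noncomputable def eh : U ≃ₜ E5 := Psi.trans Lin.toHomeomorph

theorem eh_apply (u : U) : eh u = Lin (Psi u) := rfl

theorem eh_symm_apply (x : E5) : eh.symm x = Psi.symm (Lin.symm x) := rfl

/-- deck transformations on the model space -/
noncomputable def D (g : G) (x : E5) : E5 := Lin (DW g (Lin.symm x))

theorem D_eq (g : G) (x : E5) : D g x = eh (g • eh.symm x) := by
  rw [eh_apply, Psi_smul, eh_symm_apply, Homeomorph.apply_symm_apply, D]

theorem contDiff_D (g : G) (n : WithTop ℕ∞) : ContDiff ℂ n (D g) :=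
  Lin.contDiff.comp ((contDiff_DW g n).comp Lin.symm.contDiff)

/-- The compact complex manifold. -/
abbrev X := MulAction.orbitRel.Quotient G U

/-- the quotient map on the real-analytic model -/
noncomputable def q0 (u : U) : X := Quotient.mk _ u

theorem isQ : IsQuotientCoveringMap q0 G :=
  isQuotientCoveringMap_quotientMk_of_properlyDiscontinuousSMul

/-- the covering map from the model space -/
noncomputable def proj (x : E5) : X := q0 (eh.symm x)

theorem proj_cov : IsCoveringMap proj := isQ.isCoveringMap.comp_homeomorph eh.symm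

theorem proj_surj : Function.Surjective proj := isQ.surjective.comp eh.symm.surjective

theorem proj_D (g : G) (x : E5) : proj (D g x) = proj x := by
  rw [proj, D_eq, Homeomorph.symm_apply_apply, isQ.map_smul g]
  rfl

theorem proj_trans (x y : E5) (h : proj x = proj y) : ∃ g, D g x = y := by
  obtain ⟨g, hg⟩ := isQ.apply_eq_iff_mem_orbit.mp h.symm
  refine ⟨g, ?_⟩
  have hg' : g • eh.symm x = eh.symm y := hg
  rw [D_eq, hg', Homeomorph.apply_symm_apply]

noncomputable instance : ChartedSpace E5 X := coverCharted proj_cov.isLocalHomeomorph proj_surj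

theorem nice : NiceCover D proj :=
  niceCover_coverCharted proj_cov.isLocalHomeomorph proj_surj D
    (fun g => (contDiff_D g 0).continuous) proj_D proj_trans

instance : T2Space X := t2Space_of_properlyDiscontinuousSMul_of_t2Space

instance : CompactSpace X := by
  obtain ⟨R, hR⟩ := exists_smul_mem
  have hK : IsCompact (Metric.closedBall (0 : U) R) := isCompact_closedBall 0 R
  have h1 : q0 '' (Metric.closedBall (0 : U) R) = univ := by
    rw [eq_univ_iff_forall]
    intro x
    obtain ⟨u, rfl⟩ := isQ.surjective x
    obtain ⟨g, hg⟩ := hR u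
    exact ⟨g • u, by simpa using hg, isQ.map_smul g⟩
  rw [← isCompact_univ_iff, ← h1]
  exact hK.image isQ.continuous

theorem isManifold_complex (n : WithTop ℕ∞) : IsManifold 𝓘(ℂ, E5) n X :=
  nice.isManifold fun g => contDiff_D g n

theorem isManifold_real (n : WithTop ℕ∞) : IsManifold 𝓘(ℝ, E5) n X :=
  nice.isManifold fun g => (contDiff_D g n).restrict_scalars ℝ

end Pool.Agent.Lib.MP1f1fe3
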