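import Mathlib
import Pool.Agent.Lib.MP_1f1fe3_ag.Model

set_option autoImplicit false
open scoped Topology ContDiff Manifold
open Set

namespace Pool.Agent.Lib.MP1f1fe3

/-- translation in the base direction, on the real-analytic model -/
def shU (c : ℂ) (u : U) : U := (u.1 + c, u.2)

theorem shU_smul (c : ℂ) (g : G) (u : U) : shU c (g • u) = g • shU c u := by
  simp only [shU, smul_def]
  ext1
  · simp only; ring
  · rfl

/-- the induced map on the quotient -/
noncomputable def sh (c : ℂ) : X → X :=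
  Quotient.map' (shU c) (by
    rintro a b ⟨g, hg⟩
    refine ⟨g, ?_⟩
    have hg' : g • b = a := hg
    change g • shU c b = shU c a
    rw [← shU_smul, hg'])

theorem sh_q0 (c : ℂ) (u : U) : sh c (q0 u) = q0 (shU c u) := rfl

theorem sh_zero : sh 0 = id := by
  funext x
  obtain ⟨u, rfl⟩ := isQ.surjective x
  rw [sh_q0]
  simp [shU]

theorem sh_sh (c d : ℂ) (x : X) : sh c (sh d x) = sh (d + c) x := by
  obtain ⟨u, rfl⟩ := isQ.surjective x
  rw [sh_q0, sh_q0, sh_q0]
  simp [shU, add_assoc]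

/-- the shift in holomorphic coordinates -/
noncomputable def shW (c : ℂ) (w : U) : U :=
  (w.1 + c, w.2 + (Complex.exp w.1 - Complex.exp (w.1 + c)) • J w.2)

theorem Psi_shU (c : ℂ) (u : U) : Psi (shU c u) = shW c (Psi u) := by
  simp only [Psi_apply, shU, shW]
  ext1
  · rfl
  · simp only [J_sub, J_smul, J_J, smul_zero, sub_zero, sub_smul]
    abel

theorem sh_proj (c : ℂ) (x : E5) : sh c (proj x) = proj (Lin (shW c (Lin.symm x))) := by
  have h1 : Lin.symm x = Psi (eh.symm x) := by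
    rw [eh_symm_apply, Homeomorph.apply_symm_apply]
  rw [h1, ← Psi_shU, proj, proj, sh_q0, ← eh_apply, Homeomorph.symm_apply_apply]

theorem contDiff_shW (c : ℂ) (n : WithTop ℕ∞) :
    ContDiff ℝ n (fun q : ℝ × U => shW (c * q.1) q.2) := by
  have h : (fun q : ℝ × U => shW (c * q.1) q.2) = fun q : ℝ × U =>
      (q.2.1 + c * q.1, q.2.2 + (Complex.exp q.2.1 - Complex.exp (q.2.1 + c * q.1)) • JC q.2.2) :=
    rfl
  rw [h]
  have h1 : ContDiff ℝ n (fun q : ℝ × U => c * (q.1 : ℂ)) :=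
    contDiff_const.mul (Complex.ofRealCLM.contDiff.comp contDiff_fst)
  have h2 : ContDiff ℝ n (fun q : ℝ × U => q.2.1) := contDiff_fst.comp contDiff_snd
  have h3 : ContDiff ℝ n (fun q : ℝ × U => q.2.2) := contDiff_snd.comp contDiff_snd
  have h4 : ContDiff ℝ n Complex.exp := Complex.contDiff_exp
  have h5 : ContDiff ℝ n (fun q : ℝ × U => JC q.2.2) := JC.contDiff.comp h3
  exact (h2.add h1).prodMk (h3.add (((h4.comp h2).sub (h4.comp (h2.add h1))).smul h5))

/-- The isotopy is smooth. -/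
theorem contMDiff_shift (c : ℂ) (n : WithTop ℕ∞) :
    ContMDiff (𝓘(ℝ, ℝ).prod 𝓘(ℝ, E5)) 𝓘(ℝ, E5) n (fun q : ℝ × X => sh (c * q.1) q.2) := by
  have := isManifold_real n
  apply nice.contMDiff_of_comp_prod
  have h1 : (fun q : ℝ × E5 => sh (c * (q.1, proj q.2).1) (q.1, proj q.2).2) =
      fun q : ℝ × E5 => proj (Lin (shW (c * q.1) (Lin.symm q.2))) := by
    funext q
    exact sh_proj _ _
  rw [h1]
  have h2 : ContMDiff 𝓘(ℝ, E5) 𝓘(ℝ, E5) n proj :=
    nice.contMDiff_proj fun g => (contDiff_D g n).restrict_scalars ℝ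
  have h3 : ContDiff ℝ n (fun q : ℝ × E5 => Lin (shW (c * q.1) (Lin.symm q.2))) := by
    have h4 : ContDiff ℝ n (fun q : ℝ × E5 => (q.1, Lin.symm q.2)) :=
      contDiff_fst.prodMk ((Lin.symm.contDiff.restrict_scalars ℝ).comp contDiff_snd)
    exact (Lin.contDiff.restrict_scalars ℝ).comp ((contDiff_shW c n).comp h4)
  refine h2.comp ?_
  have h5 := h3.contMDiff
  rw [← modelWithCornersSelf_prod, ← chartedSpaceSelf_prod] at *
  exact h5

theorem contMDiff_sh_real (c : ℂ) (n : WithTop ℕ∞) : ContMDiff 𝓘(ℝ, E5) 𝓘(ℝ, E5) n (sh c) := by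
  have h1 := contMDiff_shift c n
  have h2 : ContMDiff 𝓘(ℝ, E5) (𝓘(ℝ, ℝ).prod 𝓘(ℝ, E5)) n (fun x : X => ((1 : ℝ), x)) :=
    contMDiff_const.prodMk contMDiff_id
  have h3 := h1.comp h2
  simpa [Function.comp_def] using h3

/-- real diffeomorphism -/
noncomputable def shDiffeo (c : ℂ) (n : WithTop ℕ∞) : Diffeomorph 𝓘(ℝ, E5) 𝓘(ℝ, E5) X X n where
  toFun := sh c
  invFun := sh (-c)
  left_inv x := by rw [sh_sh]; simp [sh_zero]
  right_inv x := by rw [sh_sh]; simp [sh_zero]
  contMDiff_toFun := contMDiff_sh_real c n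
  contMDiff_invFun := contMDiff_sh_real (-c) n

theorem contMDiff_sh_complex {c : ℂ} (hc : Complex.exp c = 1) (n : WithTop ℕ∞) :
    ContMDiff 𝓘(ℂ, E5) 𝓘(ℂ, E5) n (sh c) := by
  have := isManifold_complex n
  apply nice.contMDiff_of_comp
  have h1 : sh c ∘ proj = fun x => proj (Lin (shW c (Lin.symm x))) := by
    funext x
    exact sh_proj _ _
  rw [h1]
  have h2 : ContMDiff 𝓘(ℂ, E5) 𝓘(ℂ, E5) n proj :=
    nice.contMDiff_proj fun g => contDiff_D g n
  refine h2.comp ?_
  have h3 : shW c = fun w => (w.1 + c, w.2) := by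
    funext w
    simp [shW, Complex.exp_add, hc]
  rw [h3]
  have h4 : ContDiff ℂ n (fun w : U => (w.1 + c, w.2)) :=
    (contDiff_fst.add contDiff_const).prodMk contDiff_snd
  exact (Lin.contDiff.comp (h4.comp Lin.symm.contDiff)).contMDiff

theorem exp_neg_eq_one {c : ℂ} (hc : Complex.exp c = 1) : Complex.exp (-c) = 1 := by
  rw [Complex.exp_neg, hc, inv_one]

/-- biholomorphism -/
noncomputable def shBihol {c : ℂ} (hc : Complex.exp c = 1) (n : WithTop ℕ∞) :
    Diffeomorph 𝓘(ℂ, E5) 𝓘(ℂ, E5) X X n where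
  toFun := sh c
  invFun := sh (-c)
  left_inv x := by rw [sh_sh]; simp [sh_zero]
  right_inv x := by rw [sh_sh]; simp [sh_zero]
  contMDiff_toFun := contMDiff_sh_complex hc n
  contMDiff_invFun := contMDiff_sh_complex (exp_neg_eq_one hc) n

theorem sh_continuous (c : ℂ) : Continuous (sh c) := (contMDiff_sh_real c 0).continuous

end Pool.Agent.Lib.MP1f1fe3
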