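import Mathlib
import Pool.Agent.Lib.MP_1f1fe3_ag.Shift

set_option autoImplicit false
open scoped Topology ContDiff Manifold
open Set

namespace Pool.Agent.Lib.MP1f1fe3

theorem exists_emb_close (v : V) : ∃ l, ‖v + emb l‖ ≤ 2 := by
  let l : Matrix (Fin 2) (Fin 2) GaussianInt := fun i j => ⟨-⌊(v i j).re⌋, -⌊(v i j).im⌋⟩
  refine ⟨l, ?_⟩
  rw [pi_norm_le_iff_of_nonneg (by norm_num)]
  intro i
  rw [pi_norm_le_iff_of_nonneg (by norm_num)]
  intro j
  have h1 : (v + emb l) i j = ⟨Int.fract (v i j).re, Int.fract (v i j).im⟩ := by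
    have hl : emb l i j = ⟨-(⌊(v i j).re⌋ : ℝ), -(⌊(v i j).im⌋ : ℝ)⟩ := by
      rw [emb_apply]
      apply Complex.ext <;> simp [l]
    change v i j + emb l i j = _
    rw [hl]
    apply Complex.ext
    · simp [Int.fract, sub_eq_add_neg]
    · simp [Int.fract, sub_eq_add_neg]
  rw [h1]
  refine (Complex.norm_le_abs_re_add_abs_im _).trans ?_
  simp only
  rw [abs_of_nonneg (Int.fract_nonneg _), abs_of_nonneg (Int.fract_nonneg _)]
  have h2 := (Int.fract_lt_one (v i j).re).le
  have h3 := (Int.fract_lt_one (v i j).im).le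
  linarith

theorem bounded_of_inv {F : Type*} [NormedAddCommGroup F] {f : U → F} (hf : Continuous f)
    (hinv : ∀ g w, f (DW g w) = f w) : Bornology.IsBounded (range f) := by
  obtain ⟨R, hR⟩ := exists_smul_mem
  have hK : IsCompact (Metric.closedBall (0 : U) R) := isCompact_closedBall 0 R
  have h1 : IsCompact ((f ∘ Psi) '' Metric.closedBall (0 : U) R) :=
    hK.image (hf.comp Psi.continuous)
  refine h1.isBounded.subset ?_
  rintro _ ⟨w, rfl⟩
  obtain ⟨g, hg⟩ := hR (Psi.symm w)
  refine ⟨g • Psi.symm w, by simpa using hg, ?_⟩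
  simp only [Function.comp_apply]
  rw [Psi_smul, hinv, Homeomorph.apply_symm_apply]

theorem const_of_inv {F : Type*} [NormedAddCommGroup F] [NormedSpace ℂ F] {f : U → F}
    (hf : Differentiable ℂ f) (hinv : ∀ g w, f (DW g w) = f w) (w w' : U) : f w = f w' :=
  hf.apply_eq_apply_of_bounded (bounded_of_inv hf.continuous hinv) w w'

/-- lattice vector in the fibre over `z` -/
noncomputable def psi (z : ℂ) (v : V) : V := v - Complex.exp z • J v

theorem psi_add (z : ℂ) (v w : V) : psi z (v + w) = psi z v + psi z w := by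
  simp only [psi, J_add, smul_add]; abel

theorem const_of_periodic {F : Type*} [NormedAddCommGroup F] [NormedSpace ℂ F] (z : ℂ)
    {f : V → F} (hf : Differentiable ℂ f) (hinv : ∀ l w, f (w + psi z (emb l)) = f w) (w w' : V) :
    f w = f w' := by
  apply hf.apply_eq_apply_of_bounded
  have hK : IsCompact (Metric.closedBall (0 : V) 2) := isCompact_closedBall 0 2
  have hpsi : Continuous (psi z) := by
    have := J_continuous
    unfold psi
    fun_prop
  have h1 : IsCompact ((f ∘ psi z) '' Metric.closedBall (0 : V) 2) :=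
    hK.image (hf.continuous.comp hpsi)
  refine h1.isBounded.subset ?_
  rintro _ ⟨w, rfl⟩
  obtain ⟨l, hl⟩ := exists_emb_close (w + Complex.exp z • J w)
  refine ⟨w + Complex.exp z • J w + emb l, by simpa using hl, ?_⟩
  simp only [Function.comp_apply]
  rw [psi_add, hinv]
  simp [psi, J_add, J_smul, J_J]

theorem emb_of (f : Fin 2 → Fin 2 → GaussianInt) (i j : Fin 2) :
    emb (Matrix.of f) i j = GaussianInt.toComplex (f i j) := rfl

theorem exists_J_ne : ∃ l, J (emb l) ≠ 0 := by
  refine ⟨Matrix.of fun i j => if i = 0 then 1 else 0, ?_⟩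
  intro h
  have h1 := congrFun (congrFun h 1) 0
  have h2 : J (emb (Matrix.of fun i j => if i = 0 then 1 else 0)) 1 0 = 1 := by
    change (N * cj (emb (Matrix.of fun i j => if i = 0 then 1 else 0))) 1 0 = 1
    have h3 : ∀ i j, cj (emb (Matrix.of fun i j => if i = 0 then 1 else 0)) i j =
      (starRingEnd ℂ) (GaussianInt.toComplex (if i = 0 then 1 else 0)) := fun i j => rfl
    rw [Matrix.mul_apply, Fin.sum_univ_two, h3, h3]
    simp [N]
  rw [h2] at h1
  simp at h1

theorem linear_zero_of_emb (L : V →L[ℂ] V) (h : ∀ l, L (emb l) = 0) : L = 0 := by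
  ext1 v
  have hv : v = ∑ i : Fin 2, ∑ j : Fin 2, (v i j) •
      emb (Matrix.of fun i' j' => if i' = i ∧ j' = j then 1 else 0) := by
    ext a b
    simp only [Fin.sum_univ_two, Pi.add_apply, Pi.smul_apply, emb_of]
    fin_cases a <;> fin_cases b <;> simp
  rw [hv, map_sum]
  simp only [map_sum, map_smul, h]
  simp

theorem emb_I (l : Matrix (Fin 2) (Fin 2) GaussianInt) :
    emb (Matrix.of fun i j => (⟨0, 1⟩ : GaussianInt) * l i j) = Complex.I • emb l := by
  ext i j
  rw [emb_of, Pi.smul_apply, Pi.smul_apply, emb_apply, map_mul, smul_eq_mul]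
  congr 1
  apply Complex.ext <;> simp

/-- lattice translation as an element of the deck group -/
def tr (l : Matrix (Fin 2) (Fin 2) GaussianInt) : G := ⟨0, 0, l⟩

theorem om_tr (l : Matrix (Fin 2) (Fin 2) GaussianInt) : om (tr l) = 0 := by
  simp [om, tr]

theorem DW_tr (l : Matrix (Fin 2) (Fin 2) GaussianInt) (w : U) :
    DW (tr l) w = (w.1, w.2 + psi w.1 (emb l)) := by
  rw [DW, om_tr]
  change (w.1 + 0, act 0 0 w.2 + emb l - Complex.exp (w.1 + 0) • J (emb l)) = _
  rw [add_zero, act_zero_zero, psi]
  ext1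
  · rfl
  · simp only; abel

theorem first_coord {g : U → U} (hg : Differentiable ℂ g)
    (hc : ∀ γ w, g (DW γ w) = DW γ (g w)) : ∃ a : ℂ, ∀ w, (g w).1 = w.1 + a := by
  have h1 : Differentiable ℂ (fun w : U => (g w).1 - w.1) :=
    (differentiable_fst.comp hg).sub differentiable_fst
  have h2 : ∀ γ w, (fun w : U => (g w).1 - w.1) (DW γ w) = (fun w : U => (g w).1 - w.1) w := by
    intro γ w
    simp only [hc]
    simp only [DW]
    ring
  refine ⟨(g 0).1 - (0 : U).1, fun w => ?_⟩
  have h3 := const_of_inv h1 h2 w 0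
  rw [← h3]
  ring

/-- The second coordinate of a map commuting with the deck group. -/
theorem second_coord {g : U → U} (hg : Differentiable ℂ g)
    (hc : ∀ γ w, g (DW γ w) = DW γ (g w)) {a : ℂ} (ha : ∀ w, (g w).1 = w.1 + a) (z : ℂ) :
    Complex.exp a = 1 ∧ ∀ w : V, (g (z, w)).2 = w + (g (z, 0)).2 := by
  set θ : V → V := fun w => (g (z, w)).2 - w with hθ
  have hθd : Differentiable ℂ θ := by
    have h1 : Differentiable ℂ (fun w : V => g (z, w)) :=
      hg.comp ((differentiable_const z).prodMk differentiable_id)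
    exact (differentiable_snd.comp h1).sub differentiable_id
  set κ : ℂ := Complex.exp z - Complex.exp (z + a) with hκ
  have hθl : ∀ l w, θ (w + psi z (emb l)) = θ w + κ • J (emb l) := by
    intro l w
    have h1 : ((z, w + psi z (emb l)) : U) = DW (tr l) (z, w) := by rw [DW_tr]
    simp only [hθ]
    rw [h1, hc, DW_tr, ha]
    simp only [psi, hκ, sub_smul]
    abel
  -- the finite differences are constant
  have hΔ : ∀ u w, θ (w + u) - θ w = θ (0 + u) - θ 0 := by
    intro u w
    refine const_of_periodic z (f := fun w => θ (w + u) - θ w) ?_ ?_ w 0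
    · exact (hθd.comp (differentiable_id.add_const u)).sub hθd
    · intro l w
      rw [hθl, add_right_comm, hθl]
      abel
  set B : V → V := fun u => θ u - θ 0 with hB
  have hBadd : ∀ u u', B (u + u') = B u + B u' := by
    intro u u'
    simp only [hB]
    have h1 := hΔ u' u
    rw [zero_add] at h1
    have h2 : θ (u + u') = (θ (u + u') - θ u) + θ u := by abel
    rw [h2, h1]
    abel
  have hBd : Differentiable ℂ B := hθd.sub_const _
  let BA : V →+ V := AddMonoidHom.mk' B hBadd
  let BR : V →L[ℝ] V := BA.toRealLinearMap hBd.continuous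
  have hBR : ∀ u, BR u = B u := fun u => rfl
  have hL1 : HasFDerivAt B ((fderiv ℂ B 0).restrictScalars ℝ) 0 :=
    (hBd 0).hasFDerivAt.restrictScalars ℝ
  have hL2 : HasFDerivAt B BR 0 := BR.hasFDerivAt
  have hL3 : BR = (fderiv ℂ B 0).restrictScalars ℝ := hL2.unique hL1
  set L : V →L[ℂ] V := fderiv ℂ B 0 with hL
  have hBL : ∀ u, B u = L u := by
    intro u
    rw [← hBR, hL3]
    rfl
  have hLl : ∀ l, L (psi z (emb l)) = κ • J (emb l) := by
    intro l
    rw [← hBL]
    simp only [hB]
    have := hθl l 0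
    rw [zero_add] at this
    rw [this]
    abel
  have hLI : ∀ l, L (emb l) + Complex.exp z • L (J (emb l)) = - (κ • J (emb l)) := by
    intro l
    have h1 := hLl (Matrix.of fun i j => (⟨0, 1⟩ : GaussianInt) * l i j)
    rw [emb_I] at h1
    simp only [psi, J_smul, map_sub, map_smul, Complex.conj_I] at h1
    have h2 : Complex.I • (L (emb l) + Complex.exp z • L (J (emb l))) =
        Complex.I • (- (κ • J (emb l))) := by
      rw [smul_add, smul_neg]
      have h3 : Complex.exp z • -Complex.I • L (J (emb l)) =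
          - (Complex.I • Complex.exp z • L (J (emb l))) := by
        rw [smul_comm, neg_smul]
      have h4 : κ • -Complex.I • J (emb l) = - (Complex.I • κ • J (emb l)) := by
        rw [smul_comm, neg_smul]
      rw [h3, h4, sub_neg_eq_add] at h1
      exact h1
    exact smul_right_injective V Complex.I_ne_zero h2
  have hLl' : ∀ l, L (emb l) - Complex.exp z • L (J (emb l)) = κ • J (emb l) := by
    intro l
    have h1 := hLl l
    simpa only [psi, map_sub, map_smul] using h1
  have hL0 : L = 0 := by
    apply linear_zero_of_emb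
    intro l
    have h1 := hLI l
    have h2 := hLl' l
    have h3 : (2 : ℂ) • L (emb l) = 0 := by
      calc (2 : ℂ) • L (emb l) = (L (emb l) + Complex.exp z • L (J (emb l))) +
            (L (emb l) - Complex.exp z • L (J (emb l))) := by rw [two_smul]; abel
        _ = 0 := by rw [h1, h2]; abel
    exact (smul_eq_zero.mp h3).resolve_left two_ne_zero
  constructor
  · obtain ⟨l, hl⟩ := exists_J_ne
    have h1 := hLl' l
    rw [hL0] at h1
    simp only [zero_apply, smul_zero, sub_zero] at h1
    have h2 : κ = 0 := (smul_eq_zero.mp h1.symm).resolve_right hl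
    rw [hκ, Complex.exp_add, sub_eq_zero] at h2
    have h3 := Complex.exp_ne_zero z
    have h4 : Complex.exp z * 1 = Complex.exp z * Complex.exp a := by rw [mul_one]; exact h2
    exact (mul_left_cancel₀ h3 h4).symm
  · intro w
    have h1 := hBL w
    rw [hL0] at h1
    simp only [hB, hθ, zero_apply, sub_zero] at h1
    have h2 : (g (z, w)).2 = ((g (z, w)).2 - w - (g (z, 0)).2) + (w + (g (z, 0)).2) := by abel
    rw [h2, h1, zero_add]

end Pool.Agent.Lib.MP1f1fe3
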