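import Mathlib
import Pool.Agent.Lib.MP_1f1fe3_ag.Liouville

set_option autoImplicit false
open scoped Topology ContDiff Manifold
open Set

namespace Pool.Agent.Lib.MP1f1fe3

/-- the inclusion of the fibre over the base point -/
noncomputable def fib (v : V) : X := q0 (0, v)

theorem fib_continuous : Continuous fib := isQ.continuous.comp (continuous_const.prodMk continuous_id)

theorem om_base (k : ℤ) : om ⟨k, 0, 0⟩ = 2 * Real.pi * Complex.I * k := by
  simp [om]

theorem q0_shift (k : ℤ) (z : ℂ) (v : V) :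
    q0 (z, v) = q0 (z + 2 * Real.pi * Complex.I * k, act 0 k v) := by
  rw [← isQ.map_smul ⟨k, 0, 0⟩ (e := (z, v)), smul_def]
  change q0 (z + om ⟨k, 0, 0⟩, act 0 k v + emb 0) = _
  rw [om_base, emb_zero, add_zero]

theorem om_eq_zero {g : G} (h : om g = 0) : g.m = 0 ∧ g.n = 0 := by
  have h4 := congrArg Complex.re h
  have h5 := congrArg Complex.im h
  rw [om_re] at h4
  rw [om_im] at h5
  constructor
  · have := Real.pi_pos
    simp only [Complex.zero_im, mul_eq_zero] at h5
    rcases h5 with (h | h) | h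
    · norm_num at h
    · linarith
    · exact_mod_cast h
  · have := T_pos
    simp only [Complex.zero_re, mul_eq_zero] at h4
    rcases h4 with h | h
    · exact_mod_cast h
    · linarith

theorem fib_eq_iff (v w : V) : fib v = fib w ↔ ∃ l, v = w + emb l := by
  constructor
  · intro h
    obtain ⟨g, hg⟩ := isQ.apply_eq_iff_mem_orbit.mp h
    have hg' : g • ((0, w) : U) = (0, v) := hg
    rw [smul_def] at hg'
    have h1 : (0 : ℂ) + om g = 0 := congrArg Prod.fst hg'
    have h2 : act g.n g.m w + emb g.l = v := congrArg Prod.snd hg'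
    rw [zero_add] at h1
    obtain ⟨hm, hn⟩ := om_eq_zero h1
    rw [hm, hn, act_zero_zero] at h2
    exact ⟨g.l, h2.symm⟩
  · rintro ⟨l, rfl⟩
    have h := isQ.map_smul (tr l) (e := ((0, w) : U))
    rw [smul_def, om_tr] at h
    change q0 ((0 : ℂ) + 0, act 0 0 w + emb l) = _ at h
    rw [act_zero_zero, zero_add] at h
    exact h

/-- the lattice as an additive subgroup -/
noncomputable def embHom : Matrix (Fin 2) (Fin 2) GaussianInt →+ V :=
  AddMonoidHom.mk' emb emb_add

/-- the fibre torus -/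
abbrev Tor := V ⧸ embHom.range

theorem tor_eq_iff (v w : V) : ((v : V) : Tor) = (w : V) ↔ ∃ l, v = w + emb l := by
  rw [QuotientAddGroup.eq]
  constructor
  · rintro ⟨l, hl⟩
    have hl' : emb l = -v + w := hl
    exact ⟨-l, by rw [emb_neg, hl']; abel⟩
  · rintro ⟨l, rfl⟩
    refine ⟨-l, ?_⟩
    change emb (-l) = _
    rw [emb_neg]
    abel

/-- the inclusion of the fibre torus -/
noncomputable def iot : Tor → X :=
  Quotient.lift fib (by
    intro a b h
    have h1 : ((a : V) : Tor) = (b : V) := Quotient.sound h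
    exact (fib_eq_iff a b).mpr ((tor_eq_iff a b).mp h1))

theorem iot_mk (v : V) : iot (v : Tor) = fib v := rfl

theorem iot_continuous : Continuous iot := fib_continuous.quotient_lift _

theorem iot_injective : Function.Injective iot := by
  intro a b h
  obtain ⟨v, rfl⟩ := QuotientAddGroup.mk_surjective a
  obtain ⟨w, rfl⟩ := QuotientAddGroup.mk_surjective b
  rw [tor_eq_iff]
  exact (fib_eq_iff v w).mp h

instance : CompactSpace Tor := by
  have h1 : (fun v : V => (v : Tor)) '' (Metric.closedBall (0 : V) 2) = univ := by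
    rw [eq_univ_iff_forall]
    intro x
    obtain ⟨v, rfl⟩ := QuotientAddGroup.mk_surjective x
    obtain ⟨l, hl⟩ := exists_emb_close v
    refine ⟨v + emb l, by simpa using hl, ?_⟩
    exact (tor_eq_iff _ _).mpr ⟨l, rfl⟩
  rw [← isCompact_univ_iff, ← h1]
  exact (isCompact_closedBall 0 2).image continuous_quot_mk

theorem iot_embedding : Topology.IsClosedEmbedding iot := iot_continuous.isClosedEmbedding iot_injective

/-- a character of the fibre torus -/
noncomputable def chi (i j : Fin 2) : Tor → ℂ :=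
  Quotient.lift (fun v : V => Complex.exp (2 * Real.pi * Complex.I * ((v i j).re : ℂ))) (by
    intro a b h
    have h1 : ((a : V) : Tor) = (b : V) := Quotient.sound h
    obtain ⟨l, rfl⟩ := (tor_eq_iff a b).mp h1
    have h2 : ((b + emb l) i j).re = (b i j).re + ((l i j).re : ℝ) := by
      change ((b i j) + emb l i j).re = _
      rw [emb_apply]
      simp
    simp only [h2]
    push_cast
    rw [mul_add, Complex.exp_add]
    have h3 : Complex.exp (2 * Real.pi * Complex.I * ((l i j).re : ℂ)) = 1 := by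
      rw [mul_comm]
      exact Complex.exp_int_mul_two_pi_mul_I _
    rw [h3, mul_one])

theorem chi_mk (i j : Fin 2) (v : V) :
    chi i j (v : Tor) = Complex.exp (2 * Real.pi * Complex.I * ((v i j).re : ℂ)) := rfl

theorem chi_continuous (i j : Fin 2) : Continuous (chi i j) := by
  refine Continuous.quotient_lift ?_ _
  fun_prop

theorem N_ne_zero : N ≠ 0 := by
  intro h
  have := congrFun (congrFun h 1) 0
  simp [N] at this

theorem A_injective {n m : ℤ} (h : A ℂ n = A ℂ m) : n = m := by
  have h1 := A_N n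
  have h2 := A_N m
  rw [h] at h1
  have h3 : N * A ℂ m ≠ 0 := by
    intro h4
    apply N_ne_zero
    calc N = N * (A ℂ m * A ℂ (-m)) := by rw [A_mul_neg, Matrix.mul_one]
      _ = 0 := by rw [← Matrix.mul_assoc, h4, Matrix.zero_mul]
  have h4 : Complex.exp ((n : ℂ) * T) = Complex.exp ((m : ℂ) * T) :=
    smul_left_injective ℂ h3 (h1.symm.trans h2)
  have h5 : Real.exp ((n : ℝ) * T) = Real.exp ((m : ℝ) * T) := by
    have : ((Real.exp ((n : ℝ) * T) : ℝ) : ℂ) = ((Real.exp ((m : ℝ) * T) : ℝ) : ℂ) := by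
      push_cast
      exact h4
    exact_mod_cast this
  have h6 := Real.exp_injective h5
  have h7 := mul_right_cancel₀ T_pos.ne' h6
  exact_mod_cast h7

theorem A_entry (n : ℤ) (i j : Fin 2) : A ℂ n i j = ((A ℤ n i j : ℤ) : ℂ) := by
  rw [← A_map (Int.castRingHom ℂ) n]
  rfl

/-- separation of the powers by a character -/
theorem exists_sep {n m : ℤ} (h : n ≠ m) : ∃ (v : V) (i j : Fin 2),
    chi i j ((act 0 n v : V) : Tor) ≠ chi i j ((act 0 m v : V) : Tor) := by
  have h1 : A ℂ n ≠ A ℂ m := fun h' => h (A_injective h')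
  have h2 : ∃ i j, A ℂ n i j ≠ A ℂ m i j := by
    by_contra h'
    push Not at h'
    exact h1 (Matrix.ext h')
  obtain ⟨i, j, hij⟩ := h2
  rw [A_entry, A_entry] at hij
  have hδ : (A ℤ n i j : ℤ) ≠ A ℤ m i j := fun h' => hij (by rw [h'])
  set δ : ℝ := (A ℤ n i j : ℝ) - (A ℤ m i j : ℝ) with hδd
  have hδ0 : δ ≠ 0 := by
    rw [hδd, sub_ne_zero]
    exact_mod_cast hδ
  let v : V := fun a b => if a = i ∧ b = i then ((1 / (2 * δ) : ℝ) : ℂ) else 0
  have hv : ∀ k, act 0 k v i j = ((1 / (2 * δ) * (A ℤ k i j : ℝ) : ℝ) : ℂ) := by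
    intro k
    change (A ℂ 0 * (Matrix.of v) * A ℂ k) i j = _
    rw [A_zero, Matrix.one_mul, Matrix.mul_apply]
    simp only [A_entry, Matrix.of_apply, v]
    rw [Finset.sum_eq_single i]
    · simp
    · intro b _ hb
      simp [hb]
    · simp
  refine ⟨v, i, j, ?_⟩
  rw [chi_mk, chi_mk, hv, hv, Complex.ofReal_re, Complex.ofReal_re]
  intro h3
  have h4 : Complex.exp (2 * Real.pi * Complex.I * ((1 / (2 * δ) * (A ℤ n i j : ℝ) : ℝ) : ℂ)) =
      Complex.exp (Real.pi * Complex.I) *
      Complex.exp (2 * Real.pi * Complex.I * ((1 / (2 * δ) * (A ℤ m i j : ℝ) : ℝ) : ℂ)) := by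
    rw [← Complex.exp_add]
    congr 1
    have h5 : (A ℤ n i j : ℝ) = δ + (A ℤ m i j : ℝ) := by rw [hδd]; ring
    rw [h5]
    have h6 : (δ : ℂ) ≠ 0 := by exact_mod_cast hδ0
    push_cast
    field_simp
  rw [h3, Complex.exp_pi_mul_I] at h4
  have h7 := Complex.exp_ne_zero (2 * Real.pi * Complex.I * ((1 / (2 * δ) * (A ℤ m i j : ℝ) : ℝ) : ℂ))
  have h8 : (1 : ℂ) = -1 := mul_right_cancel₀ h7 (by rw [one_mul]; exact h4)
  norm_num at h8

end Pool.Agent.Lib.MP1f1fe3
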