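import Mathlib
import Pool.Agent.Lib.MP_1f1fe3_ag.Sep

set_option autoImplicit false
open scoped Manifold

namespace Pool.Agent.Lib.MP1f1fe3

/-- The biholomorphisms of `X` that are smoothly isotopic to the identity. -/
def Aut1 : Set C(X, X) :=
  {g : C(X, X) |
          ∃ φ : Diffeomorph (𝓘(ℂ, EuclideanSpace ℂ (Fin 5))) (𝓘(ℂ, EuclideanSpace ℂ (Fin 5)))
              X X ((⊤ : ℕ∞) : WithTop ℕ∞),
            (⇑φ = ⇑g) ∧
            ∃ H : ℝ → X → X,
              ContMDiff ((𝓘(ℝ, ℝ)).prod (𝓘(ℝ, EuclideanSpace ℂ (Fin 5))))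
                (𝓘(ℝ, EuclideanSpace ℂ (Fin 5))) ((⊤ : ℕ∞) : WithTop ℕ∞)
                (fun p : ℝ × X => H p.1 p.2) ∧
              H 0 = id ∧ H 1 = ⇑g ∧
              ∀ t : ℝ, ∃ ψ : Diffeomorph (𝓘(ℝ, EuclideanSpace ℂ (Fin 5)))
                  (𝓘(ℝ, EuclideanSpace ℂ (Fin 5))) X X ((⊤ : ℕ∞) : WithTop ℕ∞),
                ⇑ψ = H t}

/-- the deck family consists of invertible maps -/
theorem D_inv (i : G) : ∃ j, (∀ x, D j (D i x) = x) ∧ ∀ x, D i (D j x) = x := by
  refine ⟨i⁻¹, fun x => ?_, fun x => ?_⟩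
  · rw [D_eq, D_eq, Homeomorph.symm_apply_apply, inv_smul_smul, Homeomorph.apply_symm_apply]
  · rw [D_eq, D_eq, Homeomorph.symm_apply_apply, smul_inv_smul, Homeomorph.apply_symm_apply]

/-- structure of the elements of `Aut1` on the central fibre -/
theorem aut_fib {g : C(X, X)} (hg : g ∈ Aut1) :
    ∃ (k : ℤ) (c : V), ∀ v : V, g (fib v) = fib (act 0 k (v + c)) := by
  obtain ⟨φ, hφ, H, hH, hH0, hH1, -⟩ := hg
  obtain ⟨g', hg'c, hg'p, hg'D⟩ := nice.exists_lift proj_cov D_inv hH.continuous hH0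
  have := isManifold_complex ((⊤ : ℕ∞) : WithTop ℕ∞)
  have hsm : ContMDiff 𝓘(ℂ, E5) 𝓘(ℂ, E5) ((⊤ : ℕ∞) : WithTop ℕ∞) g' := by
    refine nice.contMDiff_lift (f := fun x => φ (proj x)) ?_ hg'c ?_
    · exact φ.contMDiff.comp (nice.contMDiff_proj fun g => contDiff_D g _)
    · intro x
      rw [hg'p, hH1, hφ]
  have hd : Differentiable ℂ g' := hsm.contDiff.differentiable (by simp)
  set gt : U → U := fun w => Lin.symm (g' (Lin w)) with hgt
  have hgtd : Differentiable ℂ gt :=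
    Lin.symm.differentiable.comp (hd.comp Lin.differentiable)
  have hgtc : ∀ γ w, gt (DW γ w) = DW γ (gt w) := by
    intro γ w
    have h1 : Lin (DW γ w) = D γ (Lin w) := by
      rw [D, ContinuousLinearEquiv.symm_apply_apply]
    simp only [hgt]
    rw [h1, hg'D, D, ContinuousLinearEquiv.symm_apply_apply]
  obtain ⟨a, ha⟩ := first_coord hgtd hgtc
  obtain ⟨hea, hsec⟩ := second_coord hgtd hgtc ha 0
  obtain ⟨k, hk⟩ := Complex.exp_eq_one_iff.mp hea
  set c : V := (gt (0, 0)).2 with hc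
  refine ⟨-k, c + J c, fun v => ?_⟩
  have h1 : fib v = proj (Lin (Psi (0, v))) := by
    rw [proj, ← eh_apply, Homeomorph.symm_apply_apply]
    rfl
  have h2 : g (fib v) = q0 (Psi.symm (gt (Psi (0, v)))) := by
    rw [h1]
    have h3 : g (proj (Lin (Psi (0, v)))) = proj (g' (Lin (Psi (0, v)))) := by
      rw [hg'p, hH1]
    rw [h3]
    rfl
  have h4 : gt (Psi (0, v)) = (a, (v - J v) + c) := by
    rw [Psi_apply]
    simp only [Complex.exp_zero, one_smul]
    ext1
    · simp only [ha, zero_add]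
    · exact hsec _
  rw [h2, h4, Psi_symm_apply]
  simp only [hea, one_smul, J_add, J_sub, J_J]
  rw [q0_shift (-k)]
  have h5 : a + 2 * Real.pi * Complex.I * ((-k : ℤ) : ℂ) = 0 := by
    rw [hk]; push_cast; ring
  rw [h5]
  have h6 : v - J v + c + (J v - 0 + J c) = v + (c + J c) := by abel
  rw [h6]
  rfl

/-- the lift of the evaluation map to the fibre torus -/
theorem exists_r (v : V) : ∃ r : ↥Aut1 → Tor, Continuous r ∧ ∀ g, iot (r g) = g.1 (fib v) := by
  have h : ∀ g : ↥Aut1, ∃ x : Tor, iot x = g.1 (fib v) := by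
    intro g
    obtain ⟨k, c, hkc⟩ := aut_fib g.2
    exact ⟨((act 0 k (v + c) : V) : Tor), by rw [iot_mk, hkc]⟩
  choose r hr using h
  refine ⟨r, ?_, hr⟩
  rw [iot_embedding.isInducing.continuous_iff]
  have h2 : iot ∘ r = fun g : ↥Aut1 => g.1 (fib v) := by
    funext g
    exact hr g
  rw [h2]
  exact (continuous_eval_const (fib v)).comp continuous_subtype_val

/-- the element `F_n` -/
noncomputable def Fn (n : ℤ) : C(X, X) :=
  ⟨sh (-(2 * Real.pi * Complex.I * n)), sh_continuous _⟩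

theorem Fn_mem (n : ℤ) : Fn n ∈ Aut1 := by
  have he : Complex.exp (-(2 * Real.pi * Complex.I * n)) = 1 := by
    apply exp_neg_eq_one
    rw [mul_comm]
    exact Complex.exp_int_mul_two_pi_mul_I n
  refine ⟨shBihol he _, rfl, fun t => sh (-(2 * Real.pi * Complex.I * n) * t), ?_, ?_, ?_, ?_⟩
  · exact contMDiff_shift _ _
  · simp [sh_zero]
  · simp [Fn]
  · intro t
    exact ⟨shDiffeo _ _, rfl⟩

theorem Fn_fib (n : ℤ) (v : V) : Fn n (fib v) = fib (act 0 n v) := by
  change sh (-(2 * Real.pi * Complex.I * n)) (q0 (0, v)) = q0 (0, act 0 n v)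
  rw [sh_q0, shU, q0_shift n]
  simp

theorem component_injective :
    Function.Injective (fun n : ℤ => ((⟨Fn n, Fn_mem n⟩ : ↥Aut1) : ConnectedComponents ↥Aut1)) := by
  intro n m hnm
  by_contra hne
  obtain ⟨v, i, j, hv⟩ := exists_sep hne
  obtain ⟨r, hrc, hr⟩ := exists_r v
  obtain ⟨r0, hr0c, hr0⟩ := exists_r 0
  set f : ↥Aut1 → ℂ := fun g => chi i j (r g - r0 g) with hf
  have hfc : Continuous f := (chi_continuous i j).comp (hrc.sub hr0c)
  have hval : ∀ g, f g ∈ Set.range (fun k : ℤ => chi i j ((act 0 k v : V) : Tor)) := by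
    intro g
    obtain ⟨k, c, hkc⟩ := aut_fib g.2
    refine ⟨k, ?_⟩
    have h1 : r g = ((act 0 k (v + c) : V) : Tor) := by
      apply iot_injective
      rw [hr, hkc, iot_mk]
    have h2 : r0 g = ((act 0 k (0 + c) : V) : Tor) := by
      apply iot_injective
      rw [hr0, hkc, iot_mk]
    simp only [hf]
    rw [h1, h2, zero_add, act_add_vec, ← QuotientAddGroup.mk_sub, add_sub_cancel_right]
  have hFn : ∀ k, f ⟨Fn k, Fn_mem k⟩ = chi i j ((act 0 k v : V) : Tor) := by
    intro k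
    have h1 : r ⟨Fn k, Fn_mem k⟩ = ((act 0 k v : V) : Tor) := by
      apply iot_injective
      rw [hr, iot_mk]
      exact Fn_fib k v
    have h2 : r0 ⟨Fn k, Fn_mem k⟩ = ((0 : V) : Tor) := by
      apply iot_injective
      rw [hr0, iot_mk]
      have h3 : act 0 k (0 : V) = 0 := by
        have := act_smul 0 k 0 0
        simpa using this
      have h4 := Fn_fib k 0
      rw [h3] at h4
      exact h4
    simp only [hf]
    rw [h1, h2, ← QuotientAddGroup.mk_sub, sub_zero]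
  have hcount : (Set.range (fun k : ℤ => chi i j ((act 0 k v : V) : Tor))).Countable :=
    Set.countable_range _
  have htd := hcount.isTotallyDisconnected
  have hcomp : connectedComponent (⟨Fn n, Fn_mem n⟩ : ↥Aut1) =
      connectedComponent (⟨Fn m, Fn_mem m⟩ : ↥Aut1) := ConnectedComponents.coe_eq_coe.mp hnm
  have hpre : IsPreconnected (f '' connectedComponent (⟨Fn n, Fn_mem n⟩ : ↥Aut1)) :=
    isPreconnected_connectedComponent.image f hfc.continuousOn
  have hsub : f '' connectedComponent (⟨Fn n, Fn_mem n⟩ : ↥Aut1) ⊆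
      Set.range (fun k : ℤ => chi i j ((act 0 k v : V) : Tor)) := by
    rintro _ ⟨g, -, rfl⟩
    exact hval g
  have hss := htd _ hsub hpre
  have h1 : f ⟨Fn n, Fn_mem n⟩ ∈ f '' connectedComponent (⟨Fn n, Fn_mem n⟩ : ↥Aut1) :=
    ⟨_, mem_connectedComponent, rfl⟩
  have h2 : f ⟨Fn m, Fn_mem m⟩ ∈ f '' connectedComponent (⟨Fn n, Fn_mem n⟩ : ↥Aut1) :=
    ⟨_, by rw [hcomp]; exact mem_connectedComponent, rfl⟩
  have h3 := hss h1 h2
  rw [hFn, hFn] at h3
  exact hv h3

end Pool.Agent.Lib.MP1f1fe3
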